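import Pool.Agent.Q9.Corner
import Pool.Agent.Q9.Trunc

/-!
# A centrally essential endomorphism ring which is not a PI ring
-/

set_option autoImplicit false

open Q9.Trunc

namespace Pool.Agent.Results.MP_0be8ec_al.NotPI

/-- There is an abelian group whose endomorphism ring is centrally essential but satisfies no
polynomial identity. -/
theorem result : ∃ (A : Type) (_ : AddCommGroup A),
    CentrallyEssential (AddMonoid.End A) ∧ ¬ IsPI (AddMonoid.End A) := by
  have : Module.Free ℤ (MonoidAlgebra ℤ Sg) := free_monoidAlgebra
  obtain ⟨A, hA, ⟨e⟩⟩ := Q9.Corner.corner (MonoidAlgebra ℤ Sg)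
  exact ⟨A, hA, centrallyEssential_of_ringEquiv e centrallyEssential,
    fun h => not_isPI (isPI_of_ringEquiv e h)⟩

end Pool.Agent.Results.MP_0be8ec_al.NotPI
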